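import Pool.Agent.H502Z.Vec.Block

set_option autoImplicit false

namespace Pool.Agent.Results.MP_0a8ab4_lc.AnalyticBlockMad

open Pool.Agent.H502Z.Vec

/-- Over every countable field with more than two elements there is an infinite mad family of
block subspaces that is analytic. -/
theorem result (F : Type) [Field F] [Countable F] (hF : Nat.card F ≠ 2) :
    ∃ 𝒜 : Set (Submodule F (ℕ →₀ F)), 𝒜.Infinite ∧ IsMadBlock 𝒜 ∧
      MeasureTheory.AnalyticSet (chi '' 𝒜) := main_block hF

end Pool.Agent.Results.MP_0a8ab4_lc.AnalyticBlockMad
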